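import Mathlib

/-! Slice rank decompositions: definitions, and the combinatorial lemma on sums of sets. -/

set_option autoImplicit false

open Finset

namespace Pool.Agent.X43.SR

/-- order-`d` tensors -/
abbrev Tensor (F : Type) {d : ℕ} (n : Fin d → ℕ) : Type := (∀ j, Fin (n j)) → F

/-- slice rank decompositions of length `k` -/
structure Decomp {F : Type} [Field F] {d : ℕ} {n : Fin d → ℕ} (T : Tensor F n) (k : ℕ) where
  s : Fin d → ℕ
  sum_s : ∑ j, s j = k
  u : ∀ j, Fin (s j) → (Fin (n j) → F)
  v : ∀ j, Fin (s j) → ((∀ l : {l : Fin d // l ≠ j}, Fin (n l)) → F)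
  eq : ∀ x, T x = ∑ j, ∑ i, u j i (x j) * v j i (fun l => x l)

/-! ### sums of sets of integers in an interval -/

theorem two {k : ℕ} {A B : Finset ℕ} (hA : A ⊆ range k) (hB : B ⊆ range k) :
    A.card + B.card ≤ ((range k).filter fun v => ∃ a ∈ A, ∃ b ∈ B, a + b = v).card + k := by
  classical
  have hBk := card_le_card hB
  rw [card_range] at hBk
  rcases A.eq_empty_or_nonempty with h0 | h0
  · rw [h0, card_empty]
    omega
  · set a := A.min' h0 with ha
    have haA : a ∈ A := A.min'_mem h0
    have hak : a < k := mem_range.1 (hA haA)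
    set C := (range k).filter fun v => ∃ a ∈ A, ∃ b ∈ B, a + b = v with hC
    have h1 : A.card ≤ k - a := by
      have : A ⊆ Ico a k := fun x hx => by
        rw [mem_Ico]
        exact ⟨A.min'_le x hx, mem_range.1 (hA hx)⟩
      have := card_le_card this
      rwa [Nat.card_Ico] at this
    have h2 : range k \ C ⊆ range a ∪ (range k \ B).map (addRightEmbedding a) := by
      intro v hv
      rw [mem_sdiff, mem_range, hC, mem_filter, mem_range] at hv
      obtain ⟨hvk, hv2⟩ := hv
      rw [mem_union, mem_range, mem_map]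
      by_cases hva : v < a
      · exact Or.inl hva
      · right
        refine ⟨v - a, ?_, by simp [addRightEmbedding]; omega⟩
        rw [mem_sdiff, mem_range]
        refine ⟨by omega, fun hb => hv2 ⟨hvk, a, haA, v - a, hb, by omega⟩⟩
    have h3 := (card_le_card h2).trans (card_union_le _ _)
    rw [card_map, card_range] at h3
    have h4 : (range k \ C).card = k - C.card := by
      rw [card_sdiff_of_subset (filter_subset _ _), card_range]
    have h5 : (range k \ B).card = k - B.card := by
      rw [card_sdiff_of_subset hB, card_range]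
    have h6 : C.card ≤ k := by
      have := card_le_card (filter_subset (fun v => ∃ a ∈ A, ∃ b ∈ B, a + b = v) (range k))
      rwa [card_range] at this
    omega

theorem multi {k : ℕ} : ∀ (r : ℕ) (P : Fin r → Finset ℕ) (s : Fin r → ℕ) (A : Finset ℕ),
    (∀ j, P j ⊆ range k) → (∀ j, k ≤ (P j).card + s j) → A ⊆ range k →
    ∃ R ⊆ range k, k ≤ R.card + (k - A.card) + ∑ j, s j ∧
      ∀ v ∈ R, ∃ a ∈ A, ∃ p : Fin r → ℕ, (∀ j, p j ∈ P j) ∧ a + ∑ j, p j = v := by
  intro r
  induction r with
  | zero =>
    intro P s A _ _ hA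
    refine ⟨A, hA, by simp; omega, fun v hv => ⟨v, hv, fun j => j.elim0, fun j => j.elim0, ?_⟩⟩
    simp
  | succ r ih =>
    intro P s A hP hs hA
    have h1 := two hA (hP 0)
    set A' := (range k).filter fun v => ∃ a ∈ A, ∃ b ∈ P 0, a + b = v with hA'
    obtain ⟨R, hR1, hR2, hR3⟩ := ih (fun j => P j.succ) (fun j => s j.succ) A'
      (fun j => hP _) (fun j => hs _) (filter_subset _ _)
    refine ⟨R, hR1, ?_, ?_⟩
    · rw [Fin.sum_univ_succ]
      have h2 := hs 0
      have h3 := card_le_card hA
      have h4 := card_le_card (hP 0)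
      rw [card_range] at h3 h4
      omega
    · intro v hv
      obtain ⟨a', ha', p, hp, hsum⟩ := hR3 v hv
      rw [hA', mem_filter] at ha'
      obtain ⟨-, a, ha, b, hb, hab⟩ := ha'
      refine ⟨a, ha, Fin.cons b p, ?_, ?_⟩
      · intro j
        refine Fin.cases ?_ (fun j => ?_) j
        · rw [Fin.cons_zero]; exact hb
        · rw [Fin.cons_succ]; exact hp j
      · rw [Fin.sum_univ_succ, Fin.cons_zero]
        simp only [Fin.cons_succ]
        omega

/-- many tuples with the sum `k - 1` -/
theorem tuples {K m : ℕ} (P : Fin (m + 2) → Finset ℕ) (s : Fin (m + 2) → ℕ)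
    (hP : ∀ j, P j ⊆ range (K + 1)) (hs : ∀ j, K + 1 ≤ (P j).card + s j) :
    ∃ Q : Finset ℕ, ∃ p : ℕ → Fin (m + 2) → ℕ, K + 1 ≤ Q.card + ∑ j, s j ∧
      (∀ v ∈ Q, (∀ j, p v j ∈ P j) ∧ ∑ j, p v j = K) ∧ Set.InjOn p Q := by
  classical
  obtain ⟨R, hR1, hR2, hR3⟩ := multi (k := K + 1) m (fun j => P j.castSucc.succ)
    (fun j => s j.castSucc.succ) (P 0) (fun j => hP _) (fun j => hs _) (hP 0)
  set B := P (Fin.last m).succ with hB
  set Q := R.filter fun v => K - v ∈ B with hQ
  have hex : ∀ v, ∃ p : Fin (m + 2) → ℕ, v ∈ Q →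
      (∀ j, p j ∈ P j) ∧ ∑ j, p j = K ∧ p (Fin.last m).succ = K - v := by
    intro v
    by_cases hv : v ∈ Q
    · rw [hQ, mem_filter] at hv
      obtain ⟨a, ha, p, hp, hsum⟩ := hR3 v hv.1
      have hvK := mem_range.1 (hR1 hv.1)
      refine ⟨Fin.cons a (Fin.snoc (α := fun _ => ℕ) p (K - v)), fun _ => ⟨?_, ?_, ?_⟩⟩
      · intro j
        refine Fin.cases ?_ (fun j => ?_) j
        · rw [Fin.cons_zero]; exact ha
        · rw [Fin.cons_succ]
          refine Fin.lastCases ?_ (fun j => ?_) j
          · rw [Fin.snoc_last]; exact hv.2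
          · rw [Fin.snoc_castSucc]; exact hp j
      · rw [Fin.sum_univ_succ, Fin.cons_zero]
        simp only [Fin.cons_succ]
        rw [Fin.sum_univ_castSucc]
        simp only [Fin.snoc_castSucc, Fin.snoc_last]
        omega
      · rw [Fin.cons_succ, Fin.snoc_last]
    · exact ⟨fun _ => 0, fun h => absurd h hv⟩
  choose p hp using hex
  refine ⟨Q, p, ?_, fun v hv => ⟨(hp v hv).1, (hp v hv).2.1⟩, ?_⟩
  · have h1 : Q.card + (K + 1) ≥ R.card + B.card := by
      have e1 : ((range (K + 1)).filter fun v => K - v ∈ B).card = B.card := by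
        refine card_bij (fun v _ => K - v) ?_ ?_ ?_
        · intro v hv
          exact (mem_filter.1 hv).2
        · intro v hv w hw h
          have h1 := mem_range.1 (mem_filter.1 hv).1
          have h2 := mem_range.1 (mem_filter.1 hw).1
          omega
        · intro b hb
          have h1 := mem_range.1 (hP _ hb)
          refine ⟨K - b, ?_, by omega⟩
          rw [mem_filter, mem_range]
          refine ⟨by omega, ?_⟩
          rwa [Nat.sub_sub_self (by omega)]
      have e2 : R ∩ ((range (K + 1)).filter fun v => K - v ∈ B) ⊆ Q := by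
        intro v hv
        rw [mem_inter, mem_filter] at hv
        rw [hQ, mem_filter]
        exact ⟨hv.1, hv.2.2⟩
      have e3 := card_union_add_card_inter R ((range (K + 1)).filter fun v => K - v ∈ B)
      have e4 : (R ∪ ((range (K + 1)).filter fun v => K - v ∈ B)).card ≤ K + 1 := by
        have := card_le_card (union_subset hR1
          (filter_subset (fun v => K - v ∈ B) (range (K + 1))))
        rwa [card_range] at this
      have e5 := card_le_card e2
      omega
    have h2 := hs (Fin.last m).succ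
    rw [← hB] at h2
    have h3 := hs 0
    have h4 := card_le_card (hP 0)
    rw [card_range] at h4
    have hR2' : K + 1 ≤ R.card + (K + 1 - (P 0).card) + ∑ j : Fin m, s j.castSucc.succ := hR2
    have e6 : ∑ j, s j = s 0 + (∑ j : Fin m, s j.castSucc.succ + s (Fin.last m).succ) := by
      rw [Fin.sum_univ_succ, Fin.sum_univ_castSucc]
    rw [e6]
    omega
  · intro v hv w hw h
    have h1 := (hp v hv).2.2
    have h2 := (hp w hw).2.2
    rw [h] at h1
    have h3 := mem_range.1 (hR1 (mem_filter.1 hv).1)
    have h4 := mem_range.1 (hR1 (mem_filter.1 hw).1)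
    omega

end Pool.Agent.X43.SR
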