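import Pool.Agent.X43.SR.A

/-! The tensor `∑ y_{p_1} ⊗ ⋯ ⊗ y_{p_r} ⊗ x_p` over `p_1 + ⋯ + p_r = K` and its decompositions of
length `K + 1`. -/

set_option autoImplicit false

open Finset

namespace Pool.Agent.X43.SR

/-- the position of a tuple in the last coordinate -/
def code {r : ℕ} (K : ℕ) (p : Fin r → ℕ) : Fin ((K + 1) ^ r) :=
  finFunctionFinEquiv fun j => Fin.ofNat (K + 1) (p j)

theorem code_inj {r K : ℕ} {p q : Fin r → ℕ} (hp : ∀ j, p j ≤ K) (hq : ∀ j, q j ≤ K)
    (h : code K p = code K q) : p = q := by
  have h1 := finFunctionFinEquiv.injective h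
  funext j
  have h2 := congrArg Fin.val (congrFun h1 j)
  simp only [Fin.val_ofNat] at h2
  rwa [Nat.mod_eq_of_lt (Nat.lt_succ_of_le (hp j)), Nat.mod_eq_of_lt (Nat.lt_succ_of_le (hq j))]
    at h2

theorem le_of_sum {r K : ℕ} {p : Fin r → ℕ} (h : ∑ j, p j = K) (j : Fin r) : p j ≤ K := by
  rw [← h]
  exact single_le_sum (fun i _ => Nat.zero_le (p i)) (mem_univ j)

/-- the tensor -/
def T (F : Type) [Field F] (r K : ℕ) : Tensor F (fun _ : Fin (r + 1) => (K + 1) ^ r) := fun x =>
  if ∑ j : Fin r, (x j.castSucc).val = K ∧
    x (Fin.last r) = code K (fun j => (x j.castSucc).val) then 1 else 0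

/-- the number of terms of each direction -/
def sz {r : ℕ} (q : Fin r → ℕ) : Fin (r + 1) → ℕ := Fin.snoc (α := fun _ => ℕ) q 1

/-- the decomposition attached to `q` -/
def dec (F : Type) [Field F] {r K : ℕ} (q : Fin r → ℕ) (hq : ∑ j, q j = K) :
    Decomp (T F r K) (K + 1) where
  s := sz q
  sum_s := by
    rw [Fin.sum_univ_castSucc]
    simp [sz, hq]
  u j i := fun y => if j = Fin.last r then (if y = code K q then 1 else 0)
    else (if y.val = i.val then 1 else 0)
  v j i := fun w =>
    if j = Fin.last r then
      (if ∀ l : Fin r, ∀ h : l.castSucc ≠ j, (w ⟨l.castSucc, h⟩).val = q l then 1 else 0)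
    else
      (if ∀ l : Fin r, ∀ h : l.castSucc < j, q l ≤ (w ⟨l.castSucc, h.ne⟩).val then
        (if hM : i.val < (K + 1) ^ r then
          T F r K (fun l => if h : l = j then ⟨i.val, hM⟩ else w ⟨l, h⟩) else 0) else 0)
  eq x := by
    classical
    -- the partial products
    let c : ℕ → F := fun m => if ∀ l : Fin r, l.val < m → q l ≤ (x l.castSucc).val then 1 else 0
    have key : ∀ j : Fin r, (∑ i : Fin (sz q j.castSucc),
        (if j.castSucc = Fin.last r then (if x j.castSucc = code K q then (1 : F) else 0)
          else (if (x j.castSucc).val = i.val then 1 else 0)) *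
        (if j.castSucc = Fin.last r then
          (if ∀ l : Fin r, ∀ h : l.castSucc ≠ j.castSucc, (x l.castSucc).val = q l then 1 else 0)
        else
          (if ∀ l : Fin r, ∀ h : l.castSucc < j.castSucc, q l ≤ (x l.castSucc).val then
            (if hM : i.val < (K + 1) ^ r then
              T F r K (fun l => if h : l = j.castSucc then ⟨i.val, hM⟩ else x l) else 0) else 0))) =
        (c j.val - c (j.val + 1)) * T F r K x := by
      intro j
      have hj : j.castSucc ≠ Fin.last r := Fin.castSucc_ne_last j
      simp only [if_neg hj]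
      rw [Fin.sum_univ_eq_sum_range (fun i : ℕ =>
        (if (x j.castSucc).val = i then (1 : F) else 0) *
          (if ∀ l : Fin r, ∀ h : l.castSucc < j.castSucc, q l ≤ (x l.castSucc).val then
            (if hM : i < (K + 1) ^ r then
              T F r K (fun l => if h : l = j.castSucc then ⟨i, hM⟩ else x l) else 0) else 0))]
      have e1 : sz q j.castSucc = q j := by simp [sz]
      rw [e1]
      simp only [ite_mul, one_mul, zero_mul]
      rw [sum_ite_eq]
      have e2 : (x j.castSucc).val < (K + 1) ^ r := (x j.castSucc).2
      rw [dif_pos e2]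
      have e3 : (fun l => if h : l = j.castSucc then (⟨(x j.castSucc).val, e2⟩ : Fin ((K + 1) ^ r))
          else x l) = x := by
        funext l
        split_ifs with h
        · subst h; rfl
        · rfl
      rw [e3]
      have e4 : (∀ l : Fin r, l.castSucc < j.castSucc → q l ≤ (x l.castSucc).val) ↔
          ∀ l : Fin r, l.val < j.val → q l ≤ (x l.castSucc).val := by
        refine forall_congr' fun l => ?_
        rw [Fin.castSucc_lt_castSucc_iff, Fin.lt_def]
      have e5 : (∀ l : Fin r, l.val < j.val + 1 → q l ≤ (x l.castSucc).val) ↔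
          (∀ l : Fin r, l.val < j.val → q l ≤ (x l.castSucc).val) ∧
            q j ≤ (x j.castSucc).val := by
        constructor
        · intro h
          exact ⟨fun l hl => h l (by omega), h j (by omega)⟩
        · rintro ⟨h1, h2⟩ l hl
          rcases Nat.lt_succ_iff_lt_or_eq.1 hl with h3 | h3
          · exact h1 l h3
          · have : l = j := Fin.ext h3
            rw [this]; exact h2
      simp only [c, e4, e5, mem_range]
      by_cases h1 : ∀ l : Fin r, l.val < j.val → q l ≤ (x l.castSucc).val
      · by_cases h2 : (x j.castSucc).val < q j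
        · have h3 : ¬ q j ≤ (x j.castSucc).val := by omega
          rw [if_pos h2, if_pos h1, if_pos h1, if_neg (fun h => h3 h.2)]
          ring
        · have h3 : q j ≤ (x j.castSucc).val := by omega
          rw [if_neg h2, if_pos h1, if_pos ⟨h1, h3⟩]
          ring
      · have h2 : ¬ ((∀ l : Fin r, l.val < j.val → q l ≤ (x l.castSucc).val) ∧
            q j ≤ (x j.castSucc).val) := fun h => h1 h.1
        rw [if_neg h1, if_neg h1, if_neg h2]
        simp
    have key2 : (∑ i : Fin (sz q (Fin.last r)),
        (if Fin.last r = Fin.last r then (if x (Fin.last r) = code K q then (1 : F) else 0)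
          else (if (x (Fin.last r)).val = i.val then 1 else 0)) *
        (if Fin.last r = Fin.last r then
          (if ∀ l : Fin r, ∀ h : l.castSucc ≠ Fin.last r, (x l.castSucc).val = q l then 1 else 0)
        else
          (if ∀ l : Fin r, ∀ h : l.castSucc < Fin.last r, q l ≤ (x l.castSucc).val then
            (if hM : i.val < (K + 1) ^ r then
              T F r K (fun l => if h : l = Fin.last r then ⟨i.val, hM⟩ else x l) else 0) else 0)))
        = c r * T F r K x := by
      simp only [if_true]
      rw [sum_const, card_univ, Fintype.card_fin]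
      have e1 : sz q (Fin.last r) = 1 := by simp [sz]
      rw [e1, one_smul]
      have e2 : (∀ l : Fin r, l.castSucc ≠ Fin.last r → (x l.castSucc).val = q l) ↔
          ∀ l : Fin r, (x l.castSucc).val = q l :=
        forall_congr' fun l => ⟨fun h => h (Fin.castSucc_ne_last l), fun h _ => h⟩
      simp only [e2, c]
      by_cases h1 : ∀ l : Fin r, (x l.castSucc).val = q l
      · rw [if_pos h1, mul_one]
        have h2 : (fun j : Fin r => (x j.castSucc).val) = q := funext h1
        have h3 : ∑ j : Fin r, (x j.castSucc).val = K :=
          (sum_congr rfl fun j _ => h1 j).trans hq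
        have h5 : ∀ l : Fin r, l.val < r → q l ≤ (x l.castSucc).val := fun l _ => (h1 l).ge
        rw [if_pos h5, one_mul]
        have hT : T F r K x = if ∑ j : Fin r, (x j.castSucc).val = K ∧
          x (Fin.last r) = code K (fun j => (x j.castSucc).val) then 1 else 0 := rfl
        rw [hT]
        by_cases h4 : x (Fin.last r) = code K q
        · rw [if_pos h4, if_pos ⟨h3, by rw [h2]; exact h4⟩]
        · rw [if_neg h4, if_neg (fun h => h4 (by rw [h2] at h; exact h.2))]
      · rw [if_neg h1, mul_zero]
        by_cases h2 : ∀ l : Fin r, l.val < r → q l ≤ (x l.castSucc).val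
        · have h3 : ¬ (∑ j : Fin r, (x j.castSucc).val = K) := by
            intro h3
            apply h1
            intro l
            by_contra hne
            have h4 : ∑ j, q j < ∑ j : Fin r, (x j.castSucc).val := by
              refine sum_lt_sum (fun j _ => h2 j j.2) ⟨l, mem_univ l, ?_⟩
              have := h2 l l.2
              omega
            omega
          have hT : T F r K x = 0 := if_neg (fun h => h3 h.1)
          rw [hT, mul_zero]
        · rw [if_neg h2, zero_mul]
    rw [Fin.sum_univ_castSucc]
    have e1 : T F r K x = (∑ j : Fin r, (c j.val - c (j.val + 1)) * T F r K x) +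
        c r * T F r K x := by
      rw [Fin.sum_univ_eq_sum_range (fun m : ℕ => (c m - c (m + 1)) * T F r K x), ← sum_mul,
        sum_range_sub']
      have e2 : c 0 = 1 := by
        simp only [c]
        rw [if_pos]
        intro l hl
        omega
      rw [e2]
      ring
    rw [e1]
    congr 1
    · exact sum_congr rfl fun j _ => (key j).symm
    · exact key2.symm

theorem dec_u (F : Type) [Field F] {r K : ℕ} (q : Fin r → ℕ) (hq : ∑ j, q j = K) :
    Pi.single (code K q) (1 : F) ∈ Set.range ((dec F q hq).u (Fin.last r)) := by
  have h1 : 0 < (dec F q hq).s (Fin.last r) := by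
    show 0 < sz q (Fin.last r)
    simp [sz]
  refine ⟨⟨0, h1⟩, ?_⟩
  funext y
  show (if Fin.last r = Fin.last r then (if y = code K q then (1 : F) else 0)
    else (if y.val = 0 then 1 else 0)) = _
  rw [if_pos rfl, Pi.single_apply]

end Pool.Agent.X43.SR
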