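import Pool.Agent.X43.SR.B

/-! The slice rank of the tensor `T F r K` is `K + 1`. -/

set_option autoImplicit false

open Finset

namespace Pool.Agent.X43.SR

variable {F : Type} [Field F]

theorem sum_zero {r M : ℕ} (a : Fin r → Fin M → F) (j : Fin r) (u : Fin M → F)
    (g : (Fin r → Fin M) → F) (hg : ∀ x z, g (Function.update x j z) = g x)
    (hu : ∑ z, a j z * u z = 0) :
    ∑ x : Fin r → Fin M, (∏ l, a l (x l)) * (u (x j) * g x) = 0 := by
  classical
  rw [← (Equiv.funSplitAt j (Fin M)).symm.sum_comp, Fintype.sum_prod_type_right]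
  refine sum_eq_zero fun w _ => ?_
  have e1 : ∀ z, (Equiv.funSplitAt j (Fin M)).symm (z, w) j = z := by
    intro z
    simp [Equiv.funSplitAt]
  have e2 : ∀ (z : Fin M) (l : {l // l ≠ j}),
      (Equiv.funSplitAt j (Fin M)).symm (z, w) l = w l := by
    intro z l
    simp [Equiv.funSplitAt, l.2]
  obtain ⟨c, hc⟩ : ∃ c : F, ∀ z, g ((Equiv.funSplitAt j (Fin M)).symm (z, w)) = c := by
    rcases isEmpty_or_nonempty (Fin M) with h | ⟨⟨z0⟩⟩
    · exact ⟨0, fun z => h.elim z⟩
    · refine ⟨g ((Equiv.funSplitAt j (Fin M)).symm (z0, w)), fun z => ?_⟩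
      rw [← hg ((Equiv.funSplitAt j (Fin M)).symm (z0, w)) z]
      congr 1
      funext l
      by_cases hl : l = j
      · subst hl
        rw [e1, Function.update_self]
      · rw [Function.update_of_ne hl, e2 z ⟨l, hl⟩, e2 z0 ⟨l, hl⟩]
  have e3 : ∀ z, (∏ l, a l ((Equiv.funSplitAt j (Fin M)).symm (z, w) l)) *
      (u ((Equiv.funSplitAt j (Fin M)).symm (z, w) j) *
        g ((Equiv.funSplitAt j (Fin M)).symm (z, w))) =
      (a j z * u z) * ((∏ l : {l // l ≠ j}, a l (w l)) * c) := by
    intro z
    rw [hc z, e1 z, Fintype.prod_eq_mul_prod_subtype_ne _ j, e1 z]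
    have : ∏ l : {l // l ≠ j}, a l ((Equiv.funSplitAt j (Fin M)).symm (z, w) l) =
        ∏ l : {l // l ≠ j}, a l (w l) := prod_congr rfl fun l _ => by rw [e2 z l]
    rw [this]
    ring
  rw [sum_congr rfl fun z _ => e3 z, ← sum_mul, hu, zero_mul]

/-- the leading positions of the vectors orthogonal to `s` given ones -/
theorem lead {k M s : ℕ} (hk : k ≤ M) (u : Fin s → Fin M → F) :
    ∃ P ⊆ range k, k ≤ P.card + s ∧ ∀ p ∈ P, ∃ a : Fin M → F,
      (∀ i, ∑ z, a z * u i z = 0) ∧ (∀ z, a z ≠ 0 → p ≤ z.val ∧ z.val < k) ∧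
        ∃ h : p < M, a ⟨p, h⟩ ≠ 0 := by
  classical
  set P := (range k).filter fun p => ∃ a : Fin M → F,
      (∀ i, ∑ z, a z * u i z = 0) ∧ (∀ z, a z ≠ 0 → p ≤ z.val ∧ z.val < k) ∧
        ∃ h : p < M, a ⟨p, h⟩ ≠ 0 with hP
  refine ⟨P, filter_subset _ _, ?_, fun p hp => (mem_filter.1 hp).2⟩
  by_contra hcon
  push Not at hcon
  have hPk : ∀ p : P, (p : ℕ) < k := fun p => mem_range.1 (mem_filter.1 p.2).1
  let Φ : (Fin k → F) →ₗ[F] ((P → F) × (Fin s → F)) :=
    LinearMap.prod (LinearMap.pi fun p : P => LinearMap.proj (⟨p, hPk p⟩ : Fin k))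
      (LinearMap.pi fun i => ∑ z : Fin k, (u i (Fin.castLE hk z)) • LinearMap.proj z)
  have hker : LinearMap.ker Φ ≠ ⊥ := by
    apply LinearMap.ker_ne_bot_of_finrank_lt
    rw [Module.finrank_prod, Module.finrank_fintype_fun_eq_card,
      Module.finrank_fintype_fun_eq_card, Module.finrank_fintype_fun_eq_card, Fintype.card_coe,
      Fintype.card_fin, Fintype.card_fin]
    exact hcon
  obtain ⟨b, hb, hb0⟩ := Submodule.exists_mem_ne_zero_of_ne_bot hker
  rw [LinearMap.mem_ker] at hb
  have hb1 : ∀ p : P, b ⟨p, hPk p⟩ = 0 := fun p => congrFun (Prod.ext_iff.1 hb).1 p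
  have hb2 : ∀ i, ∑ z : Fin k, u i (Fin.castLE hk z) * b z = 0 := by
    intro i
    have := congrFun (Prod.ext_iff.1 hb).2 i
    simpa [Φ] using this
  have hne : (univ.filter fun z => b z ≠ 0).Nonempty := by
    by_contra h
    rw [not_nonempty_iff_eq_empty] at h
    apply hb0
    funext z
    by_contra hz
    have : z ∈ (univ.filter fun z => b z ≠ 0) := mem_filter.2 ⟨mem_univ _, hz⟩
    rw [h] at this
    simp at this
  set p0 := (univ.filter fun z => b z ≠ 0).min' hne with hp0
  have hp0b : b p0 ≠ 0 := (mem_filter.1 (min'_mem _ hne)).2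
  have hp0P : p0.val ∈ P := by
    rw [hP, mem_filter, mem_range]
    refine ⟨p0.2, fun z => if h : z.val < k then b ⟨z.val, h⟩ else 0, ?_, ?_, ?_⟩
    · intro i
      refine Eq.trans ?_ (hb2 i)
      symm
      refine Fintype.sum_of_injective (Fin.castLE hk) (Fin.castLE_injective hk) _ _ ?_ ?_
      · intro z hz
        have : ¬ z.val < k := fun h => hz ⟨⟨z.val, h⟩, rfl⟩
        simp only [dif_neg this, zero_mul]
      · intro z
        have : (Fin.castLE hk z).val < k := z.2
        simp only [dif_pos this]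
        rw [mul_comm]
        rfl
    · intro z hz
      by_cases h : z.val < k
      · simp only [dif_pos h] at hz
        refine ⟨?_, h⟩
        have := min'_le (univ.filter fun z => b z ≠ 0) ⟨z.val, h⟩ (mem_filter.2 ⟨mem_univ _, hz⟩)
        exact this
      · simp only [dif_neg h] at hz
        exact absurd rfl hz
    · refine ⟨lt_of_lt_of_le p0.2 hk, ?_⟩
      simp only [dif_pos p0.2]
      exact hp0b
  exact hp0b (hb1 ⟨p0.val, hp0P⟩)

theorem lower {m K k' : ℕ} (D : Decomp (T F (m + 2) K) k') : K + 1 ≤ k' := by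
  classical
  have hM : K + 1 ≤ (K + 1) ^ (m + 2) := Nat.le_self_pow (by omega) _
  choose P hP1 hP2 hP3 using fun j : Fin (m + 2) => lead (F := F) hM (D.u j.castSucc)
  obtain ⟨Q, p, hQ1, hQ2, hQ3⟩ := tuples P (fun j => D.s j.castSucc) hP1 hP2
  have hle : ∀ v ∈ Q, ∀ j, p v j ≤ K := fun v hv j => le_of_sum (hQ2 v hv).2 j
  -- the unit vectors are in the span
  have hmem : ∀ v ∈ Q, Pi.single (code K (p v)) (1 : F) ∈
      Submodule.span F (Set.range (D.u (Fin.last (m + 2)))) := by
    intro v hv
    obtain ⟨h1, h2⟩ := hQ2 v hv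
    choose a ha1 ha2 ha3 using fun j => hP3 j (p v j) (h1 j)
    choose hlt ha4 using ha3
    let G : Fin ((K + 1) ^ (m + 2)) → F := fun y =>
      ∑ x : Fin (m + 2) → Fin ((K + 1) ^ (m + 2)), (∏ l, a l (x l)) *
        T F (m + 2) K (Fin.snoc (α := fun _ => Fin ((K + 1) ^ (m + 2))) x y)
    -- the first evaluation
    have hG1 : G = (∏ l, a l ⟨p v l, hlt l⟩) • Pi.single (code K (p v)) (1 : F) := by
      funext y
      show ∑ x : Fin (m + 2) → Fin ((K + 1) ^ (m + 2)), (∏ l, a l (x l)) *
        T F (m + 2) K (Fin.snoc (α := fun _ => Fin ((K + 1) ^ (m + 2))) x y) = _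
      rw [Finset.sum_eq_single (fun l => (⟨p v l, hlt l⟩ : Fin ((K + 1) ^ (m + 2))))]
      · rw [Pi.smul_apply, Pi.single_apply, smul_eq_mul]
        congr 1
        unfold T
        simp only [Fin.snoc_castSucc, Fin.snoc_last]
        by_cases hy : y = code K (p v)
        · rw [if_pos ⟨h2, hy⟩, if_pos hy]
        · rw [if_neg (fun h => hy h.2), if_neg hy]
      · intro x _ hx
        by_cases hprod : ∀ l, a l (x l) ≠ 0
        · have h3 : ∀ l, p v l ≤ (x l).val := fun l => (ha2 l (x l) (hprod l)).1
          have h4 : ¬ (∑ l, (x l).val = K) := by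
            intro h4
            apply hx
            funext l
            apply Fin.ext
            by_contra hne
            have h5 : ∑ l, p v l < ∑ l, (x l).val := by
              refine sum_lt_sum (fun l _ => h3 l) ⟨l, mem_univ l, ?_⟩
              have := h3 l
              simp only at hne
              omega
            omega
          have hT : T F (m + 2) K (Fin.snoc (α := fun _ => Fin ((K + 1) ^ (m + 2))) x y) = 0 := by
            unfold T
            simp only [Fin.snoc_castSucc, Fin.snoc_last]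
            exact if_neg (fun h => h4 h.1)
          rw [hT, mul_zero]
        · push Not at hprod
          obtain ⟨l, hl⟩ := hprod
          rw [prod_eq_zero (mem_univ l) hl, zero_mul]
      · intro h
        exact absurd (mem_univ _) h
    -- the second evaluation
    have hrest : ∀ (x : Fin (m + 2) → Fin ((K + 1) ^ (m + 2))) (y y' : Fin ((K + 1) ^ (m + 2))),
        (fun l : {l : Fin (m + 2 + 1) // l ≠ Fin.last (m + 2)} =>
          (Fin.snoc (α := fun _ => Fin ((K + 1) ^ (m + 2))) x y l.1)) =
        fun l : {l : Fin (m + 2 + 1) // l ≠ Fin.last (m + 2)} =>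
          (Fin.snoc (α := fun _ => Fin ((K + 1) ^ (m + 2))) x y' l.1) := by
      intro x y y'
      funext ⟨l, hl⟩
      obtain ⟨l', rfl⟩ := Fin.exists_castSucc_eq.2 hl
      simp only [Fin.snoc_castSucc]
    have hG2 : G ∈ Submodule.span F (Set.range (D.u (Fin.last (m + 2)))) := by
      have e1 : G = ∑ i, (∑ x : Fin (m + 2) → Fin ((K + 1) ^ (m + 2)), (∏ l, a l (x l)) *
          D.v (Fin.last (m + 2)) i (fun l => Fin.snoc (α := fun _ => Fin ((K + 1) ^ (m + 2))) x
            (code K (p v)) l.1)) • D.u (Fin.last (m + 2)) i := by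
        funext y
        show ∑ x : Fin (m + 2) → Fin ((K + 1) ^ (m + 2)), (∏ l, a l (x l)) *
          T F (m + 2) K (Fin.snoc (α := fun _ => Fin ((K + 1) ^ (m + 2))) x y) = _
        have e2 : ∀ x : Fin (m + 2) → Fin ((K + 1) ^ (m + 2)), (∏ l, a l (x l)) *
            T F (m + 2) K (Fin.snoc (α := fun _ => Fin ((K + 1) ^ (m + 2))) x y) =
            (∑ j : Fin (m + 2), ∑ i, (∏ l, a l (x l)) * (D.u j.castSucc i (x j) *
              D.v j.castSucc i (fun l => Fin.snoc (α := fun _ => Fin ((K + 1) ^ (m + 2))) x y l.1)))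
            + ∑ i, (∏ l, a l (x l)) * D.v (Fin.last (m + 2)) i
              (fun l => Fin.snoc (α := fun _ => Fin ((K + 1) ^ (m + 2))) x (code K (p v)) l.1) *
                D.u (Fin.last (m + 2)) i y := by
          intro x
          rw [D.eq, Fin.sum_univ_castSucc, mul_add]
          congr 1
          · rw [mul_sum]
            refine sum_congr rfl fun j _ => ?_
            rw [mul_sum]
            refine sum_congr rfl fun i _ => ?_
            rw [Fin.snoc_castSucc]
          · rw [mul_sum]
            refine sum_congr rfl fun i _ => ?_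
            rw [Fin.snoc_last, hrest x y (code K (p v))]
            ring
        rw [sum_congr rfl fun x _ => e2 x, sum_add_distrib]
        have e3 : ∑ x : Fin (m + 2) → Fin ((K + 1) ^ (m + 2)), ∑ j : Fin (m + 2), ∑ i,
            (∏ l, a l (x l)) * (D.u j.castSucc i (x j) *
              D.v j.castSucc i (fun l => Fin.snoc (α := fun _ => Fin ((K + 1) ^ (m + 2))) x y l.1))
            = 0 := by
          rw [sum_comm]
          refine sum_eq_zero fun j _ => ?_
          rw [sum_comm]
          refine sum_eq_zero fun i _ => ?_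
          refine sum_zero a j (D.u j.castSucc i) (fun x => D.v j.castSucc i
            (fun l => Fin.snoc (α := fun _ => Fin ((K + 1) ^ (m + 2))) x y l.1)) ?_ (ha1 j i)
          intro x z
          congr 1
          funext ⟨l, hl⟩
          show (Fin.snoc (α := fun _ => Fin ((K + 1) ^ (m + 2))) (Function.update x j z) y : _) l = _
          rw [Fin.snoc_update, Function.update_of_ne hl]
        rw [e3, zero_add, sum_comm, Finset.sum_apply]
        refine sum_congr rfl fun i _ => ?_
        rw [Pi.smul_apply, smul_eq_mul, sum_mul]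
      rw [e1]
      exact Submodule.sum_mem _ fun i _ => Submodule.smul_mem _ _
        (Submodule.subset_span ⟨i, rfl⟩)
    have hc : (∏ l, a l ⟨p v l, hlt l⟩) ≠ 0 := prod_ne_zero_iff.2 fun l _ => ha4 l
    rw [hG1] at hG2
    have := Submodule.smul_mem _ (∏ l, a l ⟨p v l, hlt l⟩)⁻¹ hG2
    rwa [smul_smul, inv_mul_cancel₀ hc, one_smul] at this
  -- counting
  have hcard : Q.card ≤ D.s (Fin.last (m + 2)) := by
    set U := Submodule.span F (Set.range (D.u (Fin.last (m + 2)))) with hU
    have hinj : Function.Injective fun v : Q => code K (p v) := by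
      intro v w h
      exact Subtype.ext (hQ3 v.2 w.2 (code_inj (hle v v.2) (hle w w.2) h))
    have hli : LinearIndependent F (fun v : Q =>
        (Pi.single (code K (p v)) (1 : F) : Fin ((K + 1) ^ (m + 2)) → F)) := by
      have := (Pi.basisFun F (Fin ((K + 1) ^ (m + 2)))).linearIndependent.comp _ hinj
      convert this using 1
      funext v
      simp
    have hli' : LinearIndependent F (fun v : Q =>
        (⟨Pi.single (code K (p v)) (1 : F), hmem v v.2⟩ : U)) := by
      refine LinearIndependent.of_comp U.subtype ?_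
      exact hli
    have h1 := hli'.fintype_card_le_finrank
    rw [Fintype.card_coe] at h1
    refine h1.trans ?_
    have h2 := finrank_range_le_card (R := F) (D.u (Fin.last (m + 2)))
    rw [Fintype.card_fin] at h2
    exact h2
  have h1 := D.sum_s
  rw [Fin.sum_univ_castSucc] at h1
  omega

/-- the slice rank is `K + 1` -/
theorem isLeast_T (m K : ℕ) :
    IsLeast {l | Nonempty (Decomp (T F (m + 2) K) l)} (K + 1) := by
  constructor
  · refine ⟨dec F (Fin.cons K fun _ => 0) ?_⟩
    rw [Fin.sum_univ_succ]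
    simp
  · rintro l ⟨D⟩
    exact lower D

end Pool.Agent.X43.SR
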